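import Pool.Agent.Run7.h795.HJ.Fin

/-!
# Rational combinations of consecutive zeta values (periods of mixed Tate Nori motives)

`ζ(i), ζ(i+1), …, ζ(i+b)` are periods of mixed Tate Nori motives over `ℚ` (for even arguments: rational multiples of
powers of `π`). The period conjecture predicts that no combination `∑_{l ≤ b} a_l C(i+l-1, l) ζ(i+l)` with rational
coefficients, not all zero, is rational. We prove this for many `i`, with a count which is uniform in the
coefficients, in their number and in the position of the window for `i`.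

With `P = ∑ a_l (-X)^l / l!` the combination is `P(d/dx) ζ(i, x)` at `x = 1`, `ζ(i, x)` the Hurwitz zeta function.

Method. Hankel determinants of the functional
`Q ↦ ∑_{d ≤ 2B} w_d ∑_{u > d} ∑_l α_l d^(b-l) [s^l] (R(u/d + s) Q(y(u/d + s)))`,
`R(t) = (2t+n-1)/(t(t+1)…(t+n-1))^(2h)`, `y(t) = t(t+n-1)`; its values are linear forms in `1` and the combinations
for odd `i ≤ 2h - 1`. The weights `w_d` kill those combinations which are irrational, if there are fewer than `B` of
them. The non-vanishing argument interpolates with multiplicity `b + 1` at every node. The single term `l = b`,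
`b` even, is `Pool/Agent/Results/MP_c2395a_nt/UniformWindows.lean`. The files are in `Run7/h795/HJ/`.

Credits: helper795 (interface, CO, MB, Jets), helper834 (WE, PR), helper42 (NO), helper437 (RM, SE), helper858 (SF),
helper973 (AR), helper209 (NV, AS); the files of the library `Run7/h795/UW` (helper209, 234, 366, 795, 973).
-/

set_option autoImplicit false

namespace Pool.Agent.Results.MP_5d33ca_ag.ConsecutiveZetaPeriods

/-- the combination `∑_{l ≤ b} a_l C(i + l - 1, l) ζ(i + l)` of consecutive zeta values -/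
noncomputable def comb (b : ℕ) (a : ℕ → ℚ) (i : ℕ) : ℝ :=
  ∑ l ∈ Finset.range (b + 1), (a l : ℝ) * (Nat.choose (i + l - 1) l : ℝ) * ∑' n : ℕ, 1 / ((n : ℝ) + 1) ^ (i + l)

/-- **Rational combinations of consecutive zeta values.** There are `c > 0` and `K₀` such that for all `K ≥ K₀`, all
`j₀ ≥ 3`, all `b` and all rational `a_0, …, a_b`, not all zero, at least `c √(K log log K / log K)` of the integers
`i` of the parity of `j₀` with `j₀ ≤ i ≤ K (j₀ + b)` have `∑_{l ≤ b} a_l C(i+l-1, l) ζ(i+l)` irrational. -/
theorem result : ∃ c : ℝ, 0 < c ∧ ∃ K0 : ℕ, ∀ K ≥ K0, ∀ (j0 b : ℕ) (a : ℕ → ℚ), 3 ≤ j0 →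
    (∃ l, l ≤ b ∧ a l ≠ 0) →
    c * Real.sqrt (K * Real.log (Real.log K) / Real.log K) ≤
      (Set.ncard {i : ℕ | i % 2 = j0 % 2 ∧ j0 ≤ i ∧ i ≤ K * (j0 + b) ∧ Irrational (comb b a i)} : ℝ) :=
  Run7.h795.HJ.z_jets

end Pool.Agent.Results.MP_5d33ca_ag.ConsecutiveZetaPeriods
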