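import Pool.Agent.Run7.h696.CA.WINM
import Pool.Agent.Run7.h225.HG.Tup
import Pool.Agent.Run7.h696.CF.Ev

/-!
# Hyperlogarithms and periods of hypergeometric motives at correlated algebraic fibres: windows around all algebraic points

Let `α_1, …, α_n` be rational numbers which are not integers with the sum `0`, `n ≥ 2`, `θ = z d/dz` and
`Q(x) = ∏_j (x + α_j)`. The fibres of the family of hypergeometric motives `θ^n - z Q(θ)` occur in the cohomology of smooth
projective varieties (toric hypersurfaces). Their periods near `z = 0` are linear combinations with constant coefficients of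
the numbers `(θ^i f_j)(z)`, where `f_0, …, f_{n-1}` is the basis of solutions given by the Frobenius method (the monodromy at
`0` is maximally unipotent).

For finitely many such equations `e_j` and linear polynomials `ℓ_j(t) = a_j t + b_j` over `ℚ` we consider the `j`-th family at
the fibre `1 / ℓ_j(ξ)`, for example one family at the fibres `1 / ξ, 1 / (ξ - 1), …, 1 / (ξ - s)`. The fibres are correlated:
the points of the product family lie on one rational curve in the product of the bases. Let moreover `c_1, …, c_m` be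
different integers, not `0`, and `τ` an integer. The iterated integrals from `0` of the forms `dz / z` and `dz / (1 - c_s z)`
are the hyperlogarithms `L_w(z)`; at `z = 1 / (ξ - τ)` they are iterated integrals from infinity to `ξ` with singular points
`τ, τ + c_1, …, τ + c_m`, that is periods of the mixed Tate motives of the fundamental groupoid of the line without these
points (over the number field generated by `ξ`). The torsor of the hyperlogarithms is the set of the characters of the shuffle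
algebra.

We consider the direct sum of all these motives, mixed Tate and hypergeometric, at the points `ξ_i = τ + ζ - G u_i` of a
window `u_i ∈ {1, …, H}` around any algebraic number `ζ` of bounded degree whose height is at most a power of `|ζ|` and whose
absolute value is larger than a power of `H`. Outside of at most `trdeg ℚ(2πi, Ω) + q + 1` of the `u` (a number which depends
neither on the window nor on the other parameters) for all `k`-tuples of distinct points of the window all relations of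
bounded degree over number fields of bounded degree between the constants `Ω`, arbitrary numbers `v ∈ ℂ^q`, the logarithms,
the entries of the period matrices and the values of all hyperlogarithms of bounded weight hold on the product of the torsors:
they are consequences of the shuffle relations, the determinants and the bilinear relations.

The condition on the equations and polynomials is that if `ℓ_i` and `ℓ_j` have the value `1` at the same point then the
exponents at infinity of `e_i` are not those of `e_j` or of its dual modulo `ℤ`, and that there is an integer `τ` with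
`ℓ_j(τ) ≤ 0` for all `j`. If all `a_j` are positive, then there is always such a `τ`.

The functional part is that of `MP_12eca1_ag.CorrelatedMixedMotives` (`Pool/Agent/Run7/h696`): the local monodromies of the
pulled back families generate the product of the groups, and the hyperlogarithms are linearly independent over the field of the
solutions. The arithmetic part is a theorem on G-functions in windows around algebraic points (`Pool/Agent/Y916`, starting
tree).
-/

set_option autoImplicit false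

open PowerSeries Pool.Agent.Y119.HZ Pool.Agent.Run7.h225.HG Pool.Agent.Run7.h696.CF Run7.h893.HO Pool.Agent.Run7.h696.CA

namespace Pool.Agent.Results.MP_5d33ca_ag.CorrelatedMixedWindows

/-- The coefficients of the hyperlogarithms of the words in the letters `none` (the form `dz / z`) and `some s` (the form
`dz / (1 - c_s z)`, `s` in `Fin m`): `L_w(z) = ∑_k coef w k z^k`, `L_[] = 1`, `L_w(0) = 0` if `w` is not empty,
`d L_(none w) = L_w dz / z` and `d L_(some s w) = L_w dz / (1 - c_s z)`. -/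
def coef {m : ℕ} (c : Fin m → ℤ) : List (Option (Fin m)) → ℕ → ℚ
  | [], k => if k = 0 then 1 else 0
  | none :: w, k => coef c w k / k
  | some s :: w, k => (∑ l ∈ Finset.range k, (c s : ℚ) ^ (k - 1 - l) * coef c w l) / k

/-- the hyperlogarithm `L_w(z)`, `|z| < 1`, `|c_s z| < 1` -/
noncomputable def hlog {m : ℕ} (c : Fin m → ℤ) (w : List (Option (Fin m))) (z : ℂ) : ℂ := ∑' k : ℕ, (coef c w k : ℂ) * z ^ k

/-- the word does not end with the letter `none` -/
def Convergent {m : ℕ} (w : List (Option (Fin m))) : Prop := w.getLast? ≠ some none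

/-- the convergent words of length (weight) at most `W` -/
abbrev Word (m W : ℕ) : Type := {w : List (Option (Fin m)) // w.length ≤ W ∧ Convergent w}

/-- the terms of the shuffle product of two words -/
def shuffle {A : Type} : List A → List A → List (List A)
  | [], v => [v]
  | a :: u, [] => [a :: u]
  | a :: u, b :: v => (shuffle u (b :: v)).map (a :: ·) ++ (shuffle (a :: u) v).map (b :: ·)

/-- The characters of the shuffle algebra of the convergent words: `x(u) x(v)` is the sum of the values of `x` at the terms of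
the shuffle product of `u` and `v`. -/
def Character {m : ℕ} (x : List (Option (Fin m)) → ℂ) : Prop :=
  x [] = 1 ∧ ∀ u v, Convergent u → Convergent v → x u * x v = ((shuffle u v).map x).sum

/-- different letters, not `0` -/
def Letters {m : ℕ} (c : Fin m → ℤ) : Prop := Function.Injective c ∧ ∀ s, c s ≠ 0

/-- A hypergeometric equation `θ^n f = z ∏_j (θ + α_j) f`. -/
structure Eqn where
  n : ℕ
  α : Fin n → ℚ

/-- the dual equation (the exponents at infinity are `-α_j`) -/
def Eqn.dual (e : Eqn) : Eqn := ⟨e.n, fun j => -e.α j⟩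

/-- the multiset of the fractional parts of the `α_j` -/
def Eqn.frac (e : Eqn) : Multiset ℚ := Multiset.map (fun j => Int.fract (e.α j)) Finset.univ.val

/-- the polynomial `Q = ∏_j (x + α_j)` -/
noncomputable def Eqn.poly (e : Eqn) : Polynomial ℚ := ∏ j, (Polynomial.X + Polynomial.C (e.α j))

/-- `Q(-x) = Q(x)` -/
def Eqn.Symplectic (e : Eqn) : Prop := e.poly.comp (-Polynomial.X) = e.poly

/-- The order is at least two, the exponents at infinity are not integers, their sum is `0`, and either the fractional parts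
of the `α_j` and of the `-α_j` are different multisets or `Q(-x) = Q(x)`. -/
def Eqn.Admissible (e : Eqn) : Prop :=
  2 ≤ e.n ∧ (∀ j, ∀ a : ℤ, e.α j ≠ a) ∧ ∑ j, e.α j = 0 ∧ (e.frac ≠ e.dual.frac ∨ e.Symplectic)

/-- A list of equations `e_j`, linear polynomials `ℓ_j(t) = a_j t + b_j` and an integer `τ`: the equations are admissible,
`a_j ≠ 0` and `ℓ_j(τ) ≤ 0`, and if two polynomials have the value `1` at the same point, then the exponents at infinity
of the two equations, and of one of them and of the dual of the other one, are different modulo `ℤ`. -/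
def Good {r : ℕ} (e : Fin r → Eqn) (a b : Fin r → ℚ) (τ : ℤ) : Prop :=
  (∀ j, (e j).Admissible ∧ a j ≠ 0 ∧ a j * τ + b j ≤ 0) ∧
  ∀ i j, i ≠ j → (1 - b i) / a i = (1 - b j) / a j → (e i).frac ≠ (e j).frac ∧ (e i).frac ≠ (e j).dual.frac

/-- the power series `k + ε` in the variable `ε` -/
noncomputable def shift (k : ℕ) : PowerSeries ℚ := C (k : ℚ) + X

/-- `a_k(ε) = ∏_{l < k} Q(l + ε) / (l + 1 + ε)^n`. The series `∑_k a_k(ε) z^(k + ε)` solves the equation
`(θ^n - z Q(θ)) f = ε^n z^ε`, hence its coefficients `f_j` at `ε^j` with `j < n` are solutions of the homogeneous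
equation. -/
noncomputable def Eqn.frob (e : Eqn) (k : ℕ) : PowerSeries ℚ :=
  ∏ l ∈ Finset.range k, (Polynomial.aeval (shift l) e.poly * ((shift (l + 1))⁻¹) ^ e.n)

/-- The matrix with the entries `(θ^i f_j)(z)`, `|z| < 1`, where `f_j(z)` is the coefficient of `ε^j` in the series
`∑_k a_k(ε) z^(k + ε)`, `z^ε = ∑_a (log z)^a ε^a / a!`, with the value `l` of `log z`. -/
noncomputable def Eqn.Y (e : Eqn) (z l : ℂ) : Matrix (Fin e.n) (Fin e.n) ℂ :=
  Matrix.of fun i j => ∑ a ∈ Finset.range ((j : ℕ) + 1), l ^ a / (a.factorial : ℂ) *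
    ∑' k : ℕ, ((coeff ((j : ℕ) - a) (shift k ^ (i : ℕ) * e.frob k) : ℚ) : ℂ) * z ^ k

/-- The matrix of the alternating form: the entry `(i, j)` is `(-1)^i q_{i+j+1-n}` for `i + j + 1 ≥ n` and `0`
otherwise, where `q_l` are the coefficients of `Q`. -/
noncomputable def Eqn.J (e : Eqn) : Matrix (Fin e.n) (Fin e.n) ℂ :=
  Matrix.of fun i j => if e.n ≤ (i : ℕ) + j + 1 then (((-1) ^ (i : ℕ) * e.poly.coeff (i + j + 1 - e.n) : ℚ) : ℂ) else 0

/-- The torsor (a group) of the equation: `det X = 1`, and `Xᵀ J X = J` if `Q(-x) = Q(x)`. -/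
def Eqn.G (e : Eqn) : Set (Matrix (Fin e.n) (Fin e.n) ℂ) :=
  {X | X.det = 1 ∧ (e.Symplectic → X.transpose * e.J * X = e.J)}

/-- the coordinates: `k` numbers, `k` lists of matrices and `k` numbers for every word -/
abbrev Coord {r : ℕ} (e : Fin r → Eqn) (k m W : ℕ) : Type :=
  (Σ _ : Fin k, Option (Σ j : Fin r, Fin (e j).n × Fin (e j).n)) ⊕ Fin k × Word m W

/-- the point with the coordinates `l_i`, the entries of the matrices `X_ij` and the numbers `x_i(w)` -/
def point {r k m W : ℕ} {e : Fin r → Eqn} (l : Fin k → ℂ) (X : Fin k → ∀ j, Matrix (Fin (e j).n) (Fin (e j).n) ℂ)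
    (x : Fin k → List (Option (Fin m)) → ℂ) : Coord e k m W → ℂ
  | Sum.inl ⟨i, none⟩ => l i
  | Sum.inl ⟨i, some ⟨j, p⟩⟩ => X i j p.1 p.2
  | Sum.inr (i, w) => x i w.1

/-- the coordinates of the constants: the entries of the `Ω_j` and `q` further numbers `v` -/
def consts {r q : ℕ} {e : Fin r → Eqn} (Ω : ∀ j, Matrix (Fin (e j).n) (Fin (e j).n) ℂ) (v : Fin q → ℂ) :
    (Σ j : Fin r, Fin (e j).n × Fin (e j).n) ⊕ Fin q → ℂ := Sum.elim (fun p => Ω p.1 p.2.1 p.2.2) v

/-- `ζ` is a root of a nonzero integral polynomial of degree at most `g` with coefficients of size at most `|ζ|^A` -/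
def Height (g A : ℕ) (ζ : ℂ) : Prop :=
  ∃ p : Polynomial ℤ, p ≠ 0 ∧ p.natDegree ≤ g ∧ (∀ j, |(p.coeff j : ℝ)| ≤ ‖ζ‖ ^ A) ∧ Polynomial.aeval ζ p = 0

/-- For a logarithm `l` of `ξ - τ` the logarithm `l + Log(ℓ(ξ) / (a (ξ - τ)))` of `ℓ(ξ) / a`, `ℓ(t) = a t + b`, with
the principal value `Log`. -/
noncomputable def branch (a b : ℚ) (τ : ℤ) (ξ l : ℂ) : ℂ :=
  l + Complex.log (((a : ℂ) * ξ + b) / ((a : ℂ) * (ξ - τ)))

/-- `ξ - τ` has absolute value larger than `1` and than all `|c_s|`, and all `ℓ_j(ξ)` have absolute value larger than `1` -/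
def Large {r m : ℕ} (a b : Fin r → ℚ) (τ : ℤ) (c : Fin m → ℤ) (ξ : ℂ) : Prop :=
  1 < ‖ξ - τ‖ ∧ (∀ s, |(c s : ℝ)| < ‖ξ - τ‖) ∧ ∀ j, 1 < ‖(a j : ℂ) * ξ + b j‖

/-- For all choices `l_i` of the logarithms of the `ξ_i - τ` and all number fields `K` of degree `≤ d`, every polynomial of
degree `≤ δ` over `K` which vanishes at the point with the coordinates `Ω`, `v`, `l_i`, the entries of the matrices
`Y_j(1 / ℓ_j(ξ_i)) Ω_j` (with the logarithm of `a_j z`, `z = 1 / ℓ_j(ξ_i)`, given by `l_i` in place of the logarithm of `z`, that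
is to say up to the constant matrix `exp(N log a_j)`) and the values `L_w(1 / (ξ_i - τ))`, `w` of weight `≤ W`, vanishes at all
points with the coordinates `Ω`, `v`, `l'_i ∈ ℂ`, the entries of `X_ij Ω_j` with `X_ij` in the torsor of `e_j` and the values of
arbitrary characters `x_i` of the shuffle algebra. -/
def Generic {r k q m : ℕ} (δ d W : ℕ) (e : Fin r → Eqn) (a b : Fin r → ℚ) (τ : ℤ) (c : Fin m → ℤ)
    (Ω : ∀ j, Matrix (Fin (e j).n) (Fin (e j).n) ℂ) (v : Fin q → ℂ) (ξ : Fin k → ℂ) : Prop :=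
  ∀ l : Fin k → ℂ, (∀ i, Complex.exp (l i) = ξ i - τ) →
    ∀ K : IntermediateField ℚ ℂ, FiniteDimensional ℚ K → Module.finrank ℚ K ≤ d →
    ∀ P : MvPolynomial (((Σ j : Fin r, Fin (e j).n × Fin (e j).n) ⊕ Fin q) ⊕ Coord e k m W) K, P.totalDegree ≤ δ →
    MvPolynomial.aeval (Sum.elim (consts Ω v) (point l (fun i j =>
      (e j).Y (1 / ((a j : ℂ) * ξ i + b j)) (-branch (a j) (b j) τ (ξ i) (l i)) * Ω j)
      fun i w => hlog c w (1 / (ξ i - τ)))) P = 0 →
    ∀ (l' : Fin k → ℂ) (X : Fin k → ∀ j, Matrix (Fin (e j).n) (Fin (e j).n) ℂ) (x : Fin k → List (Option (Fin m)) → ℂ),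
      (∀ i j, X i j ∈ (e j).G) → (∀ i, Character (x i)) →
      MvPolynomial.aeval (Sum.elim (consts Ω v) (point l' (fun i j => X i j * Ω j) x)) P = 0

theorem coef_eq {m : ℕ} (c : Fin m → ℤ) (w : List (Option (Fin m))) (k : ℕ) :
    coef c w k = Pool.Agent.Run7.h696.CP.co c w k := by
  induction w generalizing k with
  | nil => rfl
  | cons x w ih =>
    rcases x with _ | s
    · show coef c w k / k = Pool.Agent.Run7.h696.CP.co c w k / k
      rw [ih]
    · show (∑ l ∈ Finset.range k, (c s : ℚ) ^ (k - 1 - l) * coef c w l) / k =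
        (∑ l ∈ Finset.range k, (c s : ℚ) ^ (k - 1 - l) * Pool.Agent.Run7.h696.CP.co c w l) / k
      simp only [ih]

theorem hlog_eq {m : ℕ} (c : Fin m → ℤ) (w : List (Option (Fin m))) (z : ℂ) :
    hlog c w z = vz z (Pool.Agent.Run7.h696.CP.hy c w) := by
  unfold hlog vz Pool.Agent.Y916.Al.evc Pool.Agent.Run7.h696.CP.hy
  refine tsum_congr fun k => ?_
  rw [coef_eq, coeff_mk]

theorem shuffle_eq {A : Type} (u v : List A) : shuffle u v = sh u v := by
  induction u generalizing v with
  | nil => rw [shuffle, sh]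
  | cons a u ihu =>
    induction v with
    | nil => rw [shuffle, sh]
    | cons b v ihv => rw [shuffle, sh, ihu, ihv]

theorem char_iff {m : ℕ} (x : List (Option (Fin m)) → ℂ) : Character x ↔ Chr x := by
  constructor
  · rintro ⟨h1, h2⟩
    exact ⟨h1, fun u v hu hv => by rw [h2 u v hu hv, shuffle_eq]⟩
  · rintro ⟨h1, h2⟩
    exact ⟨h1, fun u v hu hv => by rw [h2 u v hu hv, shuffle_eq]⟩

theorem hlog_char {m : ℕ} (c : Fin m → ℤ) {z : ℂ} (hz : ‖z‖ < 1) (hcz : ∀ s, ‖(c s : ℂ) * z‖ < 1) :
    Character fun w => hlog c w z := by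
  classical
  rw [char_iff]
  simp only [hlog_eq]
  set S : Finset ℝ := insert 1 (Finset.univ.image fun s => |(c s : ℝ)|) with hS
  have hSn : S.Nonempty := ⟨1, Finset.mem_insert_self _ _⟩
  have hL1 : 1 ≤ S.max' hSn := Finset.le_max' _ _ (Finset.mem_insert_self _ _)
  have hcL : ∀ s, |(c s : ℝ)| ≤ S.max' hSn := fun s =>
    Finset.le_max' S _ (by
      rw [hS]
      exact Finset.mem_insert_of_mem (Finset.mem_image_of_mem (fun s => |(c s : ℝ)|) (Finset.mem_univ s)))
  refine (pp.val pp.shuf m c _ hL1 hcL).2 z ?_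
  rw [lt_div_iff₀ (by linarith), mul_comm]
  rcases Finset.mem_insert.1 (S.max'_mem hSn) with h | h
  · rw [h, one_mul]
    exact hz
  · obtain ⟨s, -, hs⟩ := Finset.mem_image.1 h
    rw [← hs]
    have h1 := hcz s
    rw [norm_mul, Complex.norm_intCast] at h1
    exact h1

theorem point_eq {r k m W : ℕ} {e : Fin r → Eqn} (l : Fin k → ℂ)
    (X : Fin k → ∀ j, Matrix (Fin (e j).n) (Fin (e j).n) ℂ) (x : Fin k → List (Option (Fin m)) → ℂ) :
    point (W := W) l X x = Sum.elim (pjc (n := fun j => (e j).n) l X) fun p => x p.1 p.2.1 := by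
  funext v
  obtain ⟨i, _ | ⟨j, p⟩⟩ | ⟨i, w⟩ := v
  · rfl
  · rfl
  · rfl

theorem frob_eq (e : Eqn) (k : ℕ) : e.frob k = Pool.Agent.Y119.HY.aq e.n e.poly k := rfl

theorem J_eq (e : Eqn) : e.J = Pool.Agent.Y119.HY.cm (Pool.Agent.Y119.HY.Jm e.n e.poly) := by
  ext i j
  rw [Pool.Agent.Y119.HY.cm_apply]
  unfold Eqn.J Pool.Agent.Y119.HY.Jm
  rw [Matrix.of_apply, Matrix.of_apply]
  split_ifs
  · rfl
  · simp

theorem Y_eq (e : Eqn) (z l : ℂ) : e.Y z l = Pool.Agent.Y119.HY.Hf (Pool.Agent.Y119.HY.Hc e.n e.poly) z *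
    Pool.Agent.Y119.HY.E (Pool.Agent.Y119.HY.cm (Pool.Agent.Y119.HY.Am e.n)) l := by
  ext i j
  unfold Eqn.Y
  rw [Matrix.of_apply, Matrix.mul_apply]
  have hE : ∀ c : Fin e.n, Pool.Agent.Y119.HY.E (Pool.Agent.Y119.HY.cm (Pool.Agent.Y119.HY.Am e.n))
      l c j = ∑ a ∈ Finset.range e.n, if (j : ℕ) = c + a then l ^ a / (a.factorial : ℂ) else 0 := by
    intro c
    unfold Pool.Agent.Y119.HY.E
    rw [Matrix.sum_apply]
    refine Finset.sum_congr rfl fun a _ => ?_
    rw [Matrix.smul_apply, ← Pool.Agent.Y119.HY.cm_pow, Pool.Agent.Y119.HY.cm_apply, Pool.Agent.Y119.HY.Am_pow, smul_eq_mul]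
    split_ifs
    · push_cast
      ring
    · simp
  simp only [hE, Finset.mul_sum]
  rw [Finset.sum_comm]
  have hsub : Finset.range ((j : ℕ) + 1) ⊆ Finset.range e.n := by
    intro a ha
    rw [Finset.mem_range] at ha ⊢
    have := j.2
    omega
  refine Finset.sum_subset_zero_on_sdiff hsub (fun a ha => ?_) fun a ha => ?_
  · rw [Finset.mem_sdiff, Finset.mem_range, Finset.mem_range] at ha
    refine Finset.sum_eq_zero fun c _ => ?_
    rw [if_neg (by omega), mul_zero]
  · rw [Finset.mem_range] at ha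
    have hj := j.2
    rw [Finset.sum_eq_single (⟨(j : ℕ) - a, by omega⟩ : Fin e.n)]
    · rw [if_pos (by simp only; omega), mul_comm]
      congr 1
    · intro c _ hc
      rw [if_neg, mul_zero]
      intro h
      apply hc
      apply Fin.ext
      simp only
      omega
    · intro h
      exact absurd (Finset.mem_univ _) h

theorem quad {e : Eqn} (he : e.Admissible) : Run7.h893.HO.QG e.n e.poly := QG_QA he.1 (nonint he.2.1)

theorem dat {r : ℕ} {e : Fin r → Eqn} {a b : Fin r → ℚ} {τ : ℤ} (he : Good e a b τ) {L : ℝ} (hL : 0 < L)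
    (h : ∀ j, |((1 / a j : ℚ) : ℝ)| + |((-b j / a j - τ : ℚ) : ℝ)| ≤ L) :
    DatL (fun j => (e j).n) (fun j => (e j).poly) (fun j => ((-b j / a j - τ : ℚ) : ℝ)) (fun j => ((1 / a j : ℚ) : ℝ)) L where
  q := fun j => quad (he.1 j).1
  q' := fun j => by
    show Run7.h893.HO.QG _ (dq _ (QA (e j).α))
    rw [dq_QA]
    exact QG_QA (he.1 j).1.1 (nonint' (he.1 j).1.2.1)
  tr := fun j => (QA_coeff (by have := (he.1 j).1.1; omega) (e j).α).trans (he.1 j).1.2.2.1
  ty := fun j => by
    rcases (he.1 j).1.2.2.2 with h | h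
    · refine Or.inr fun h2 => h ?_
      have h3 : RatEq (QA (e j).α) (dq (e j).n (QA (e j).α)) := h2
      rw [dq_QA] at h3
      exact RatEq_QA h3
    · exact Or.inl (QDeven (quad (he.1 j).1) h)
  c0 := fun j => by
    have h2 : (1 / a j : ℚ) ≠ 0 := one_div_ne_zero (he.1 j).2.1
    exact_mod_cast h2
  gc := fun j => by
    have h1 := par_gc (he.1 j).2.2
    exact_mod_cast h1
  L0 := hL
  cL := h
  sep := fun i j hij hc _ => by
    have h1 : (1 / a i + (-b i / a i - τ) : ℚ) = 1 / a j + (-b j / a j - τ) := by exact_mod_cast hc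
    rw [par_s, par_s] at h1
    have h2 : (1 - b i) / a i = (1 - b j) / a j := by linarith
    obtain ⟨h3, h4⟩ := he.2 i j hij h2
    refine ⟨fun h => h3 (RatEq_QA h), fun h => h4 ?_⟩
    have h5 : RatEq (QA (e i).α) (dq (e j).n (QA (e j).α)) := h
    rw [dq_QA] at h5
    exact RatEq_QA h5

theorem G_eq {e : Eqn} (he : e.Admissible) : e.G = Gp e.n e.poly := by
  ext X
  unfold Eqn.G Gp
  rw [J_eq]
  refine and_congr_right fun _ => ⟨fun h h2 => h ?_, fun h h2 => h ?_⟩
  · exact evenQD h2
  · exact QDeven (quad he) h2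

theorem mem_G {e : Eqn} (he : e.Admissible) {z : ℂ} (hz : ‖z‖ < 1) (l : ℂ) : e.Y z l ∈ e.G := by
  rw [G_eq he, Y_eq]
  exact Gp_mul (Hf_mem (quad he) ((QA_coeff (by have := he.1; omega) e.α).trans he.2.2.1) hz) (Gp_E (quad he) _)

/-- reordering of the coordinates -/
def ro (A B C : Type) : A ⊕ (B ⊕ C) → (A ⊕ B) ⊕ C
  | Sum.inl a => Sum.inl (Sum.inl a)
  | Sum.inr (Sum.inl b) => Sum.inl (Sum.inr b)
  | Sum.inr (Sum.inr c) => Sum.inr c

theorem elim_ro {A B C : Type} {K : IntermediateField ℚ ℂ} (f : A → ℂ) (g : B → ℂ) (h : C → ℂ)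
    (P : MvPolynomial (A ⊕ (B ⊕ C)) K) :
    MvPolynomial.aeval (Sum.elim (Sum.elim f g) h) (MvPolynomial.rename (ro A B C) P) =
      MvPolynomial.aeval (Sum.elim f (Sum.elim g h)) P := by
  rw [MvPolynomial.aeval_rename]
  congr 2
  funext v
  rcases v with a | b | c <;> rfl

/-- Let `e_1, …, e_r`, `ℓ_1, …, ℓ_r`, `τ` be a good list and `c_1, …, c_m` different integers, not `0`. Then for `|z| < 1` the
matrices `Y_j(z)` lie in the torsors `G_j`, for all branches, and if moreover `|c_s z| < 1` for all `s`, then the numbers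
`L_w(z)` are a character of the shuffle algebra. For every `W` there is `G_0` such that for all `G ≥ G_0`, all constant matrices
`Ω_j` and all `q`, `k`, `g`, `d`, `δ`, `A` there is `E` such that for all `H` and all algebraic `ζ` of degree `≤ g` and of height
`≤ |ζ|^A` with `|ζ| ≥ (H + 2)^E` and all `v ∈ ℂ^q` there are at most `trdeg ℚ(2 π i, Ω) + q + 1` exceptional numbers such that
all `k`-tuples of distinct points `ξ_i = τ + ζ - G u_i` with `u_i ∈ {1, …, H}` not exceptional are large and generic: all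
relations of degree `≤ δ` over number fields of degree `≤ d` between `Ω`, `v`, the logarithms of the `ξ_i - τ`, the entries of
the period matrices of the motives of all the equations `e_j` at the correlated fibres `1 / ℓ_j(ξ_i)` and the values
`L_w(1 / (ξ_i - τ))` of all hyperlogarithms of weight `≤ W` hold for all points of the torsors and all characters of the
shuffle algebra. -/
theorem result {r m : ℕ} (e : Fin r → Eqn) (a b : Fin r → ℚ) (τ : ℤ) (c : Fin m → ℤ) (he : Good e a b τ)
    (hc : Letters c) :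
    (∀ z : ℂ, ‖z‖ < 1 → (∀ j, ∀ l : ℂ, (e j).Y z l ∈ (e j).G) ∧
      ((∀ s, ‖(c s : ℂ) * z‖ < 1) → Character fun w => hlog c w z)) ∧
    ∀ W : ℕ, ∃ G₀ : ℕ, ∀ G : ℕ, G₀ ≤ G → ∀ (Ω : ∀ j, Matrix (Fin (e j).n) (Fin (e j).n) ℂ) (q k g d δ A : ℕ), ∃ E : ℕ,
      ∀ (H : ℕ) (ζ : ℂ), Height g A ζ → ((H : ℝ) + 2) ^ E ≤ ‖ζ‖ → ∀ v : Fin q → ℂ, ∃ S : Finset ℕ,
      (S.card : Cardinal) ≤ Algebra.trdeg ℚ (IntermediateField.adjoin ℚ (insert (2 * Real.pi * Complex.I)
        (Set.range fun p : Σ j : Fin r, Fin (e j).n × Fin (e j).n => Ω p.1 p.2.1 p.2.2))) + q + 1 ∧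
      ∀ u : Fin k → ℕ, Function.Injective u → (∀ i, 1 ≤ u i ∧ u i ≤ H ∧ u i ∉ S) →
        (∀ i, Large a b τ c (τ + ζ - G * u i)) ∧ Generic δ d W e a b τ c Ω v fun i => τ + ζ - G * u i := by
  classical
  set L : ℕ := 1 + (∑ s, (c s).natAbs) + ∑ j, ⌈|(1 / a j : ℚ)| + |(-b j / a j - τ : ℚ)|⌉₊ with hLd
  have hcL : ∀ s, |(c s : ℝ)| ≤ (L : ℝ) := by
    intro s
    have h1 : (c s).natAbs ≤ ∑ s, (c s).natAbs :=
      Finset.single_le_sum (f := fun s => (c s).natAbs) (fun _ _ => Nat.zero_le _) (Finset.mem_univ s)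
    have h2 : |c s| ≤ (L : ℤ) := by
      rw [← Int.natCast_natAbs]
      exact_mod_cast (by omega : (c s).natAbs ≤ L)
    exact_mod_cast h2
  have hLle : ∀ j, |(1 / a j : ℚ)| + |(-b j / a j - τ : ℚ)| ≤ (L : ℚ) := by
    intro j
    have h1 : ⌈|(1 / a j : ℚ)| + |(-b j / a j - τ : ℚ)|⌉₊ ≤ ∑ j, ⌈|(1 / a j : ℚ)| + |(-b j / a j - τ : ℚ)|⌉₊ :=
      Finset.single_le_sum (f := fun j => ⌈|(1 / a j : ℚ)| + |(-b j / a j - τ : ℚ)|⌉₊)
        (fun _ _ => Nat.zero_le _) (Finset.mem_univ j)
    exact (Nat.le_ceil _).trans (by exact_mod_cast (by omega : _ ≤ L))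
  have hL1 : 1 ≤ L := by omega
  have hLR1 : (1 : ℝ) ≤ L := by exact_mod_cast hL1
  have hLR : (0 : ℝ) < L := by linarith
  have hLle' : ∀ j, |((1 / a j : ℚ) : ℝ)| + |((-b j / a j - τ : ℚ) : ℝ)| ≤ (L : ℝ) := fun j => by
    exact_mod_cast hLle j
  have hD := dat he hLR hLle'
  have hWW := fun j => wex_QA (α := (e j).α) (he.1 j).1.1 (he.1 j).1.2.1
  choose W' hW1 hW2 using hWW
  have hS : ∀ j, Sys (e j).n (Pool.Agent.Y119.HY.Am (e j).n) (Pool.Agent.Y119.HY.Bm (e j).n (e j).poly)
      (Hp (e j).n (e j).poly) (W' j) := by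
    intro j
    refine Fm.sys (hD.q j) (fun a b => ?_) (hW1 j) (hW2 j)
    unfold Hp
    rw [Matrix.of_apply]
    exact sdc_hps_g (Fintype.card_fin _) (nonint (he.1 j).1.2.1) (hD.q j) a b
  refine ⟨fun z hz => ⟨fun j l => mem_G (he.1 j).1 hz l, fun hcz => hlog_char c hz hcz⟩, fun W => ?_⟩
  obtain ⟨G₀, -, hW⟩ := win_cm (n := fun j => (e j).n) (Q := fun j => (e j).poly) hL1 hS hD
    (fun j => (he.1 j).2.1) hc.1 hc.2 hcL W
  refine ⟨G₀, fun G hG Ω q k g d δ A => ?_⟩
  obtain ⟨Ex, h1⟩ := hW G hG Ω q k g d δ A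
  refine ⟨Ex, fun H ζ hht hζ v => ?_⟩
  obtain ⟨S, hS, h2⟩ := h1 H ζ hζ hht v
  refine ⟨S, hS, fun u hu hub => ?_⟩
  obtain ⟨h3, h4⟩ := h2 u hu hub (fun i => τ + ζ - G * u i) (fun i => by push_cast; ring)
  refine ⟨fun i => ⟨lt_of_le_of_lt hLR1 (h3 i), fun s => lt_of_le_of_lt (hcL s) (h3 i), fun j =>
    (ne_of_big (he.1 j).2.1 (hLle' j) (h3 i)).2.2⟩, fun l hl K hKf hKd P hPd hP0 l' X x hX hx => ?_⟩
  have h5 := h4 l hl K hKf hKd (MvPolynomial.rename (ro _ _ _) P) ((MvPolynomial.totalDegree_rename_le _ _).trans hPd) (by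
    rw [point_eq] at hP0
    simp only [Y_eq, hlog_eq] at hP0
    exact (elim_ro _ _ _ P).trans hP0) l' X x (fun i j => by
    rw [← G_eq (he.1 j).1]
    exact hX i j) (fun i => (char_iff _).1 (hx i))
  rw [point_eq]
  exact (elim_ro _ _ _ P).symm.trans h5

end Pool.Agent.Results.MP_5d33ca_ag.CorrelatedMixedWindows
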