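import Pool.Agent.Results.MP_1eadae_ag.HypergeometricNormalFunctions
import Pool.Agent.Run7.h893.Kept.MixedHypergeometric
import Pool.Agent.Run7.h893.NM.Cnt
import Pool.Agent.Run7.h893.NM.Bas

/-!
# Period torsors of the mixed motives over hypergeometric families: relations of all degrees

Let `θ^n f = z Q(θ) f` be a self-dual hypergeometric equation with maximally unipotent monodromy at `z = 0` (`Eqn`, see
`HypergeometricOrthogonal`; for example the Picard-Fuchs equations of the mirror families of elliptic curves, K3 surfaces,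
Calabi-Yau threefolds and fourfolds with one parameter), with the motives `M(z)` and the solution matrix `Y = (θ^a f_b)` (`f_b`
the Frobenius basis). We consider the extensions of `M(z)` given by the inhomogeneous equations
`(θ^n - z Q(θ)) F = const · z^r`:

* `r = 0`: `F = f_n` is the next coefficient of the Frobenius series (`U` of `HypergeometricNormalFunctions`), the truncated
  higher normal function of the toric symbols of Doran and Kerr; the functions `θ^a F` and the periods of `M(z)` are the periods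
  of an extension of a Tate motive by `M(z)`, for `n = 2` the regulators of classes in `K_2` of elliptic curves;
* `0 < r < 1` (finitely many distinct `r_j`): `F = ∑_k g_k z^(k + r)` (`F` of `MixedHypergeometric`), the periods of an
  extension of the Kummer motive `z^r` by `M(z)`, for example (`r = 1/2`, mirror quintic) the normal functions of algebraic
  cycles and domain walls of the real quintic.

The mixed motive `M̃(z)` has the solution matrix `(Y, Φ; 0, 1)`, where `Φ` has the columns `(θ^a F_j)_a`, and the period matrix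
`(Y, Φ; 0, 1) (Ω, W; 0, A)` with any invertible constants `Ω`, `A` and any `W` (the periods of the limit mixed motive). There
may be no column: `M̃ = M`. Let

`M(t) = M_0 ⊕ ℚ(-1) ⊕ ⨁_i (K(t_i) ⊕ M̃_i(1 / t_i))`

with finitely many such motives of different equations and types `i`, the Kummer motives `K(t_i)` with the periods `log t_i`,
and any de Rham-Betti object `M_0` (for example the cohomology of any variety, or any mixed motive, with the period
matrix `C₀`, any invertible complex matrix).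

We prove: for almost all `t`, for all number fields `K` of degree `≤ d` at once and all bases of the de Rham side over `K`, every
`K`-subtorsor of the general linear group of `M(t)` (the complex zeros of any system of polynomials over `K`, of any degrees,
closed under `x y⁻¹ z`) which contains the period matrix is stable under the product of the groups `G_a` (acting on `K(t_i)`)
and of the groups `{g : g preserves the polarisation, det g = 1} ⋉ Hom` (acting on `M̃_i`). So the group of the Tannakian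
category of de Rham-Betti objects generated by `M(t)` contains this product: it is as large as the motivic Galois group can
be over that of `M_0` up to finite index, with the full unipotent radical, for all tuples of extensions together, and
no de Rham-Betti class in a tensor construction (subquotients included) relates the extension classes of almost all
tuples of fibres with one another, with logarithms, with the pure motives `M_i` or with `M_0`. As `K` may depend on `t`, it may
contain the numbers `t_i ^ r_ij`, the periods of the fibres of the Kummer motives `z^r`.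

The relations of bounded degree are treated in `HypergeometricNormalFunctions` and `MixedHypergeometric`. The step to
all degrees uses the criterion `abs_main` of `Pool/Agent/Y123/GN` (Lie algebras of subtorsors) and the fact that the semidirect
products are generated by the unipotent elements of a perfect set of nilpotent matrices (`Run7/h893/NT`); as `M_0` is
arbitrary, the families can be treated one at a time, the others being part of `M_0` (`Run7/h893/NM`).
-/

set_option autoImplicit false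

open Matrix

namespace Pool.Agent.Results.MP_5d33ca_ag.HypergeometricExtensions

open Pool.Agent.Results.MP_57341d_ag.HypergeometricOrthogonal (Eqn)
open Pool.Agent.Results.MP_1eadae_ag.HypergeometricNormalFunctions (U Yv_eq famW)
open Pool.Agent.Results.MP_5d33ca_ag.MixedHypergeometric (F F_eq famR)
open Pool.Agent.TH127.PT (IsSubtorsor)
open Run7.h893.NF (bk Yv)

variable {k : ℕ}

/-- The exponents of the inhomogeneous equations: either at most one exponent, which is `0`, or distinct rational numbers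
`0 < r_j < 1` such that `Q(l + r_j) ≠ 0` for all integers `l ≥ 0`. -/
def Exponents (e : Eqn) {s : ℕ} (r : Fin s → ℚ) : Prop :=
  (s ≤ 1 ∧ ∀ j, r j = 0) ∨ (Function.Injective r ∧ ∀ j, 0 < r j ∧ r j < 1 ∧ ∀ l : ℕ, e.poly.eval ((l : ℚ) + r j) ≠ 0)

/-- the matrix with the columns `(θ^a F_j)(1 / t)` -/
noncomputable def Phi (e : Eqn) {s : ℕ} (r : Fin s → ℚ) (t : ℕ) : Matrix (Fin e.order) (Fin s) ℂ :=
  Matrix.of fun a j => if r j = 0 then U e 1 t a 0 else F e (r j) t a

/-- the number `2πi` -/
noncomputable def twoPiI : ℂ := 2 * Real.pi * Complex.I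

/-- the block matrix `x ⊕ μ`; for a period matrix `x` of `M_0` and `μ = 2πi` the period matrix of `M_0 ⊕ ℚ(-1)` -/
def withTate {m : ℕ} (x : Matrix (Fin m) (Fin m) ℂ) (μ : ℂ) : Matrix (Fin m ⊕ Unit) (Fin m ⊕ Unit) ℂ :=
  Matrix.fromBlocks x 0 0 (Matrix.of fun _ _ => μ)

/-- the index set of the bases of `M_0 ⊕ ℚ(-1) ⊕ ⨁_i (K(t_i) ⊕ M̃_i(1/t_i))` -/
abbrev Index (m : ℕ) (e : Fin k → Eqn) (s : Fin k → ℕ) : Type :=
  (Fin m ⊕ Unit) ⊕ (Σ i : Fin k, Fin 2 ⊕ (Fin (e i).order ⊕ Fin (s i)))

/-- the block matrix `x ⊕ μ ⊕ ⨁_i ((1, u_i; 0, μ) ⊕ X_i)` -/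
noncomputable def total {m : ℕ} {e : Fin k → Eqn} {s : Fin k → ℕ} (x : Matrix (Fin m) (Fin m) ℂ) (μ : ℂ) (u : Fin k → ℂ)
    (X : ∀ i, Matrix (Fin (e i).order ⊕ Fin (s i)) (Fin (e i).order ⊕ Fin (s i)) ℂ) :
    Matrix (Index m e s) (Index m e s) ℂ :=
  Matrix.fromBlocks (withTate x μ) 0 0 (Matrix.blockDiagonal' fun i => Matrix.fromBlocks !![1, u i; 0, μ] 0 0 (X i))

/-- the period matrix of `M_0 ⊕ ℚ(-1) ⊕ ⨁_i (K(t_i) ⊕ M̃_i(1/t_i))`, rows: Betti side, columns: de Rham side; the block of
`M̃_i(1/t_i)` is the transpose of `(Y_i, Φ_i; 0, 1) (Ω_i, W_i; 0, A_i)` -/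
noncomputable def periodMatrix {m : ℕ} (C₀ : Matrix (Fin m) (Fin m) ℂ) (e : Fin k → Eqn) {s : Fin k → ℕ}
    (r : ∀ i, Fin (s i) → ℚ)
    (Ω : ∀ i, Matrix (Fin (e i).order) (Fin (e i).order) ℂ) (W : ∀ i, Matrix (Fin (e i).order) (Fin (s i)) ℂ)
    (A : ∀ i, Matrix (Fin (s i)) (Fin (s i)) ℂ) (t : Fin k → ℕ) : Matrix (Index m e s) (Index m e s) ℂ :=
  total C₀ twoPiI (fun i => ((Real.log (t i) : ℝ) : ℂ)) fun i =>
    (Matrix.fromBlocks ((e i).Y (t i)) (Phi (e i) (r i) (t i)) 0 1 * Matrix.fromBlocks (Ω i) (W i) 0 (A i))ᵀ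

/-- the polarisation on the homology of `M_i` -/
noncomputable def pol (e : Fin k → Eqn) (Ω : ∀ i, Matrix (Fin (e i).order) (Fin (e i).order) ℂ) (i : Fin k) :
    Matrix (Fin (e i).order) (Fin (e i).order) ℂ := (Ω i).transpose * (e i).J * Ω i

/-- For every number field `K` of degree `≤ d` and every invertible matrix `E` over `K` (change of the basis of the de Rham
side): every `K`-subtorsor which contains the period matrix times `E` is stable under all `(u_i)` (acting on the Kummer motives)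
and all `(g_i, 0; x_i, 1)` (acting on the homology of `M̃_i`) such that `g_i` has determinant one and preserves the
polarisation. -/
def Stable (d : ℕ) {m : ℕ} (C₀ : Matrix (Fin m) (Fin m) ℂ) (e : Fin k → Eqn) {s : Fin k → ℕ} (r : ∀ i, Fin (s i) → ℚ)
    (Ω : ∀ i, Matrix (Fin (e i).order) (Fin (e i).order) ℂ) (W : ∀ i, Matrix (Fin (e i).order) (Fin (s i)) ℂ)
    (A : ∀ i, Matrix (Fin (s i)) (Fin (s i)) ℂ) (t : Fin k → ℕ) : Prop :=
  ∀ K : Subfield ℂ, FiniteDimensional ℚ K → Module.finrank ℚ K ≤ d →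
  ∀ E : Matrix (Index m e s) (Index m e s) ℂ, (∀ a b, E a b ∈ K) → IsUnit E →
  ∀ T : Set (Matrix (Index m e s) (Index m e s) ℂ), IsSubtorsor K T → periodMatrix C₀ e r Ω W A t * E ∈ T →
    ∀ (u : Fin k → ℂ) (g : ∀ i, Matrix (Fin (e i).order) (Fin (e i).order) ℂ)
      (x : ∀ i, Matrix (Fin (s i)) (Fin (e i).order) ℂ),
      (∀ i, g i * pol e Ω i * (g i)ᵀ = pol e Ω i ∧ (g i).det = 1) →
      ∀ X ∈ T, total 1 1 u (fun i => Matrix.fromBlocks (g i) 0 (x i) 1) * X ∈ T

theorem withTate_unit {m : ℕ} {x : Matrix (Fin m) (Fin m) ℂ} (hx : IsUnit x) {μ : ℂ} (hμ : μ ≠ 0) :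
    IsUnit (withTate x μ) := by
  rw [Matrix.isUnit_iff_isUnit_det] at hx ⊢
  have h1 : (Matrix.of fun _ _ => μ : Matrix Unit Unit ℂ).det = μ := by
    rw [Matrix.det_unique]
    rfl
  unfold withTate
  rw [Matrix.det_fromBlocks_zero₂₁, h1]
  exact hx.mul (isUnit_iff_ne_zero.2 hμ)

theorem withTate_one {m : ℕ} : withTate (1 : Matrix (Fin m) (Fin m) ℂ) 1 = 1 := by
  unfold withTate
  have h1 : (Matrix.of fun _ _ => (1 : ℂ) : Matrix Unit Unit ℂ) = 1 := by
    ext i j
    simp
  rw [h1, fromBlocks_one]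

/-- the reindexing -/
def sg (m : ℕ) (e : Fin k → Eqn) (s : Fin k → ℕ) :
    Index m e s ≃ Pool.Agent.Y123.GN.IM (Fin m ⊕ Unit) (fun i => (e i).order + s i) :=
  Equiv.sumCongr (Equiv.refl _) (Equiv.sigmaCongrRight fun _ => Equiv.sumCongr (Equiv.refl _) finSumFinEquiv)

theorem total_sg {m : ℕ} {e : Fin k → Eqn} {s : Fin k → ℕ} (x : Matrix (Fin m) (Fin m) ℂ) (μ : ℂ) (u : Fin k → ℂ)
    (X : ∀ i, Matrix (Fin (e i).order ⊕ Fin (s i)) (Fin (e i).order ⊕ Fin (s i)) ℂ) :
    (total x μ u X).submatrix (sg m e s).symm (sg m e s).symm =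
      Pool.Agent.Y123.GN.EM (withTate x μ) (fun i => Pool.Agent.Y123.GN.kum (u i) μ)
        fun i => (X i).submatrix finSumFinEquiv.symm finSumFinEquiv.symm := by
  have key : ∀ a b : Index m e s, Pool.Agent.Y123.GN.EM (withTate x μ) (fun i => Pool.Agent.Y123.GN.kum (u i) μ)
      (fun i => (X i).submatrix finSumFinEquiv.symm finSumFinEquiv.symm) (sg m e s a) (sg m e s b) = total x μ u X a b := by
    rintro (a | ⟨i, a⟩) (b | ⟨j, b⟩)
    · rfl
    · rfl
    · rfl
    · show blockDiagonal' (fun i => fromBlocks (Pool.Agent.Y123.GN.kum (u i) μ) 0 0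
          ((X i).submatrix finSumFinEquiv.symm finSumFinEquiv.symm)) ⟨i, Equiv.sumCongr (Equiv.refl _) finSumFinEquiv a⟩
          ⟨j, Equiv.sumCongr (Equiv.refl _) finSumFinEquiv b⟩ =
        blockDiagonal' (fun i => Matrix.fromBlocks !![1, u i; 0, μ] 0 0 (X i)) ⟨i, a⟩ ⟨j, b⟩
      by_cases h : i = j
      · subst h
        rw [blockDiagonal'_apply_eq, blockDiagonal'_apply_eq]
        rcases a with a | a <;> rcases b with b | b
        · rfl
        · rfl
        · rfl
        · show (X i).submatrix finSumFinEquiv.symm finSumFinEquiv.symm (finSumFinEquiv a) (finSumFinEquiv b) = X i a b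
          rw [submatrix_apply, Equiv.symm_apply_apply, Equiv.symm_apply_apply]
      · rw [blockDiagonal'_apply_ne _ _ _ h, blockDiagonal'_apply_ne _ _ _ h]
  ext a b
  rw [submatrix_apply, ← key, Equiv.apply_symm_apply, Equiv.apply_symm_apply]

theorem Y_sub {e : Eqn} {s : ℕ} (r : Fin s → ℚ) (t : ℕ) (Ω : Matrix (Fin e.order) (Fin e.order) ℂ)
    (W : Matrix (Fin e.order) (Fin s) ℂ) (A : Matrix (Fin s) (Fin s) ℂ) :
    ((Matrix.fromBlocks (e.Y t) (Phi e r t) 0 1 * Matrix.fromBlocks Ω W 0 A)ᵀ).submatrix finSumFinEquiv.symm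
      finSumFinEquiv.symm = (bk (Pool.Agent.Y119.HZ.Yt e.order e.poly t) (Phi e r t) 0 1 * bk Ω W 0 A)ᵀ := by
  rw [← transpose_submatrix, Pool.Agent.Results.MP_57341d_ag.HypergeometricOrthogonal.Y_eq]
  unfold bk
  rw [Matrix.submatrix_mul_equiv]

theorem J_odd {e : Eqn} (he : e.Admissible) (h : e.odd = true) : e.J.transpose = e.J := by
  have h1 := Pool.Agent.Results.MP_57341d_ag.HypergeometricOrthogonal.J_symm e he
  rw [h1, h]

theorem J_even {e : Eqn} (he : e.Admissible) (h : e.odd = false) : e.J.transpose = -e.J := by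
  have h1 := Pool.Agent.Results.MP_57341d_ag.HypergeometricOrthogonal.J_symm e he
  rw [h1, h]

theorem phi_zero {e : Eqn} {s : ℕ} (hs : s ≤ 1) {r : Fin s → ℚ} (hr : ∀ j, r j = 0) (t : ℕ) :
    Run7.h893.NT.Uv e.order s e.poly t = Phi e r t := by
  ext a j
  unfold Run7.h893.NT.Uv Phi
  rw [Matrix.of_apply, Matrix.of_apply, if_pos (hr j), Yv_eq, Run7.h893.NF.bk_cn]
  have hj : (j : ℕ) = 0 := by
    have := j.2
    omega
  unfold U
  rw [Matrix.of_apply, Matrix.of_apply, hj]
  rfl

theorem phi_pos {e : Eqn} {s : ℕ} {r : Fin s → ℚ} (hr : ∀ j, 0 < r j) {t : ℕ} (ht : 1 ≤ t) :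
    Run7.h893.NM.Ur e.order s e.poly r t = Phi e r t := by
  ext a j
  unfold Run7.h893.NM.Ur Phi
  rw [Matrix.of_apply, Matrix.of_apply, if_neg (hr j).ne', F_eq _ _ ht]

theorem tp (e : Eqn) (he : e.Admissible) {s : ℕ} (r : Fin s → ℚ) (hr : Exponents e r) :
    Run7.h893.NM.TP 1 (fun _ => e.order) (fun _ => s) (fun _ => e.poly) (fun _ => e.J) (fun _ => e.B)
      (fun _ => Phi e r) := by
  rcases hr with ⟨hs, hr⟩ | hr
  · have h1 := Run7.h893.NM.TP_nf 1 (fun _ => e.order) (fun _ => s) (fun _ => hs) (fun _ => e.poly) (fun _ => e.J)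
      (fun _ => e.B) fun _ => famW e he s
    have h2 : (fun (_ : Fin 1) (t : ℕ) => Run7.h893.NT.Uv e.order s e.poly t) = fun (_ : Fin 1) => Phi e r := by
      funext _ t
      exact phi_zero hs hr t
    rw [← h2]
    exact h1
  · have h1 := Run7.h893.NM.TP_mx 1 (fun _ => e.order) (fun _ => s) (fun _ => e.poly) (fun _ => e.J)
      (fun _ => e.B) (fun _ => r) fun _ => famR e he hr
    intro δ D
    obtain ⟨c, C, hc, hC, hmain⟩ := h1 δ D
    refine ⟨c, C, hc, hC, ?_⟩
    intro V _ hV M x N hx hN S hS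
    refine hmain V hV M x N hx hN S fun t ht => ?_
    obtain ⟨hbox, P, p1, p2, p3, p4⟩ := hS t ht
    refine ⟨hbox, P, p1, p2, ?_, p4⟩
    have h3 : (fun i => bk (Pool.Agent.Y119.HZ.Yt e.order e.poly (t i)) (Run7.h893.NM.Ur e.order s e.poly r (t i)) 0 1 * M i) =
        fun i => bk (Pool.Agent.Y119.HZ.Yt e.order e.poly (t i)) (Phi e r (t i)) 0 1 * M i := by
      funext i
      rw [phi_pos (fun j => (hr.2 j).1) (by have := (hbox i).1; omega)]
    rw [h3]
    exact p3

/-- Let `e_i`, `1 ≤ i ≤ k`, be admissible self-dual hypergeometric equations and `r_ij`, `1 ≤ j ≤ s_i`, exponents for `e_i`. For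
all `d` and `m` there are `c > 0` and `C` such that for every invertible `m × m` matrix `C₀` (the period matrix of `M_0`), all
invertible `Ω_i` and `A_i`, all `W_i` and every box `∏_i (x_i, x_i + N]` with `x_i ≥ 1` the following holds for all but
`C N^(k-1) ∑_i (1 + N / (x_i + N)^c)` integral points `t` of the box: for every number field `K` of degree `≤ d` and every basis of
the de Rham side over `K`, every `K`-subtorsor of the general linear group of `M_0 ⊕ ℚ(-1) ⊕ ⨁_i (K(t_i) ⊕ M̃_i(1/t_i))`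
which contains the period matrix is stable under all `(u_i)` in the groups `G_a` and all `(g_i, 0; x_i, 1)`, `g_i` of
determinant one preserving the polarisation, `x_i` arbitrary. -/
theorem result (k : ℕ) (e : Fin k → Eqn) (he : ∀ i, (e i).Admissible) (s : Fin k → ℕ) (r : ∀ i, Fin (s i) → ℚ)
    (hr : ∀ i, Exponents (e i) (r i)) (d m : ℕ) :
    ∃ c C : ℝ, 0 < c ∧ ∀ C₀ : Matrix (Fin m) (Fin m) ℂ, IsUnit C₀ →
      ∀ (Ω : ∀ i, Matrix (Fin (e i).order) (Fin (e i).order) ℂ) (W : ∀ i, Matrix (Fin (e i).order) (Fin (s i)) ℂ)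
        (A : ∀ i, Matrix (Fin (s i)) (Fin (s i)) ℂ), (∀ i, IsUnit (Ω i)) → (∀ i, IsUnit (A i)) →
      ∀ (x : Fin k → ℕ) (N : ℕ), (∀ i, 1 ≤ x i) → 1 ≤ N →
      (({t : Fin k → ℕ | (∀ i, x i < t i ∧ t i ≤ x i + N) ∧ ¬ Stable d C₀ e r Ω W A t}.ncard : ℕ) : ℝ) ≤
        C * (N : ℝ) ^ (k - 1) * ∑ i, (1 + N / ((x i : ℝ) + N) ^ c) := by
  classical
  obtain ⟨c, C, hc, -, hmain⟩ := Run7.h893.NM.stab_all k d (m + 1) (fun i => (e i).order) s (fun i => (e i).poly)
    (fun i => (e i).J) (fun i => (e i).B) (fun i => Phi (e i) (r i))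
    (fun i => (famW (e i) (he i) 0).toFam) (fun i => by
      rcases h : (e i).odd with _ | _
      · exact Or.inl (J_even (he i) h)
      · refine Or.inr ⟨J_odd (he i) h, ?_⟩
        have h1 : 1 ≤ (e i).m := (he i).1
        unfold Pool.Agent.Results.MP_57341d_ag.HypergeometricOrthogonal.Eqn.order
        rw [h]
        show 3 ≤ 2 * (e i).m + 1
        omega) fun i => tp (e i) (he i) (r i) (hr i)
  refine ⟨c, C, hc, ?_⟩
  intro C₀ hC₀ Ω W A hΩ hA x N hx hN
  set S := {t : Fin k → ℕ | (∀ i, x i < t i ∧ t i ≤ x i + N) ∧ ¬ Stable d C₀ e r Ω W A t} with hS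
  have hfin : S.Finite := by
    refine (Set.finite_Iic (fun i : Fin k => x i + N)).subset ?_
    intro t ht i
    exact (ht.1 i).2
  rw [Set.ncard_eq_toFinset_card S hfin]
  have h2pi : twoPiI ≠ 0 := Pool.Agent.Y123.GN.tpi_ne
  have hu := withTate_unit hC₀ h2pi
  refine hmain (Fin m ⊕ Unit) (withTate C₀ twoPiI) (by simp) hu Ω hΩ W A hA x N hx hN _ fun t ht => ?_
  have ht' : t ∈ S := hfin.mem_toFinset.1 ht
  obtain ⟨hbox, hnot⟩ := ht'
  refine ⟨hbox, fun hsta => hnot ?_⟩
  intro K hKf hKD E hE hEu T₀ hT₀ hPT₀ u g y hg X₀ hX₀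
  have hEdet : IsUnit E.det := (Matrix.isUnit_iff_isUnit_det E).1 hEu
  have hT := Run7.h893.NM.sub_mul_basis hT₀ hE hEu
  set T := {X | X * E ∈ T₀} with hTdef
  have hPT : periodMatrix C₀ e r Ω W A t ∈ T := hPT₀
  have hX : X₀ * E⁻¹ ∈ T := by
    show X₀ * E⁻¹ * E ∈ T₀
    rw [Matrix.mul_assoc, nonsing_inv_mul _ hEdet, Matrix.mul_one]
    exact hX₀
  suffices hsuf : total 1 1 u (fun i => Matrix.fromBlocks (g i) 0 (y i) 1) * (X₀ * E⁻¹) ∈ T by
    have h1 : total 1 1 u (fun i => Matrix.fromBlocks (g i) 0 (y i) 1) * (X₀ * E⁻¹) * E ∈ T₀ := hsuf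
    rw [Matrix.mul_assoc, Matrix.mul_assoc X₀, nonsing_inv_mul _ hEdet, Matrix.mul_one] at h1
    exact h1
  generalize X₀ * E⁻¹ = X at hX ⊢
  clear_value T
  have hT' := Run7.h893.AT.sub_reindex (sg m e s).symm hT
  rw [Equiv.symm_symm] at hT'
  have hmem : ∀ Z : Matrix (Index m e s) (Index m e s) ℂ,
      Z.submatrix (sg m e s).symm (sg m e s).symm ∈ {X : Matrix (Pool.Agent.Y123.GN.IM (Fin m ⊕ Unit) (fun i => (e i).order + s i))
        (Pool.Agent.Y123.GN.IM (Fin m ⊕ Unit) (fun i => (e i).order + s i)) ℂ | X.submatrix (sg m e s) (sg m e s) ∈ T} ↔ Z ∈ T := by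
    intro Z
    show (Z.submatrix (sg m e s).symm (sg m e s).symm).submatrix (sg m e s) (sg m e s) ∈ T ↔ _
    rw [submatrix_submatrix]
    have h1 : (sg m e s).symm ∘ (sg m e s) = id := by
      funext a
      simp
    rw [h1, submatrix_id_id]
  have h1 := hsta K hKf hKD _ hT' (by
    have h2 := (hmem _).2 hPT
    unfold periodMatrix at h2
    rw [total_sg] at h2
    have h3 : (fun i => ((Matrix.fromBlocks ((e i).Y (t i)) (Phi (e i) (r i) (t i)) 0 1 *
        Matrix.fromBlocks (Ω i) (W i) 0 (A i))ᵀ).submatrix finSumFinEquiv.symm finSumFinEquiv.symm) =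
        Run7.h893.NM.cU (n := fun i => (e i).order) (q := s) (fun i => (e i).poly) (fun i => Phi (e i) (r i)) Ω W A t := by
      funext i
      exact Y_sub _ _ _ _ _
    rw [h3] at h2
    exact h2) u g y (fun i => hg i) _ ((hmem X).2 hX)
  have h4 : Pool.Agent.Y123.GN.EM (1 : Matrix (Fin m ⊕ Unit) (Fin m ⊕ Unit) ℂ) (fun i => Pool.Agent.Y123.GN.uu (u i))
      (fun i => bk (g i) 0 (y i) 1) =
      (total 1 1 u (fun i => Matrix.fromBlocks (g i) 0 (y i) 1)).submatrix (sg m e s).symm (sg m e s).symm := by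
    rw [total_sg, withTate_one]
    rfl
  rw [h4, Matrix.submatrix_mul_equiv] at h1
  exact (hmem _).1 h1

end Pool.Agent.Results.MP_5d33ca_ag.HypergeometricExtensions
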