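import Pool.Agent.Run7.h225.HP.ALL2

/-!
# All multiple polylogarithms and products of hypergeometric motives at algebraic points

A word `w` in the letters `0` and `1` which does not end with `0` is of the form `0^(s_1 - 1) 1 ⋯ 0^(s_d - 1) 1`, the multiple
polylogarithm `Li_w(z) = ∑_{k_1 > … > k_d ≥ 1} z^(k_1) / (k_1^(s_1) ⋯ k_d^(s_d))` and `log z` are, together with `2πi` and the
values at `z = 1`, the periods of the mixed Tate motives of the fundamental groupoid of the projective line without `0`, `1`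
and `∞` between `0` and `z`. The torsor of the polylogarithms is the set of the characters of the shuffle algebra.

Let `α_1, …, α_n` be rational numbers which are not integers, `n ≥ 2`, `θ = z d/dz` and `Q(x) = ∏_j (x + α_j)`. We consider
the hypergeometric operators `θ^n - z Q(θ)`, with maximally unipotent monodromy at `z = 0`, the exponents `α_j` at infinity and
a pseudoreflection at `z = 1` of determinant `exp(2πi s)`, `s = ∑_j α_j`. Up to rational gauge transformations the equation
depends only on the `α_j` modulo `ℤ`; we normalise them such that `s = 0` if `s` is an integer, `Q(-x) = Q(x)` if the equation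
is self-dual and `n` is even, and `Q(-1-x) = -Q(x)` if it is self-dual and `n` is odd. The period matrices of the
corresponding families of motives at `z` near `0` are `A(z) Y(z) Ω` with the matrix `Y` of the derivatives of the Frobenius
solutions, `A` over a number field `(z)` and `Ω` constant (the periods of the limit). We take a finite list of such
equations, with exponents at infinity which are pairwise different modulo `ℤ` and different from those of the dual equations
(and not both an equation of order `2` with a reflection of order two at `1` and a self-dual one of order `3`, see Clausen's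
formula). The torsor `T_j(z)` of an equation of the list consists of the matrices `X` with `det X = (1 - z)^(-s)` and the
bilinear relations in the self-dual cases.

We consider the direct sum of all these motives, mixed Tate and hypergeometric, at the points `z = 1 / ξ`, `ξ` an algebraic
integer of bounded degree, and prove for almost all tuples of such points that all polynomial relations of bounded degree
between the numbers `log ξ_i`, the values of all multiple polylogarithms of bounded weight and the period matrices, with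
coefficients in number fields of bounded degree times an arbitrary finite dimensional space of constants, hold on the product
of the torsors: they are consequences of the shuffle relations, the determinants and the bilinear relations. The proportion of
the exceptional tuples is a negative power of the bound for the conjugates if the parameters are fixed. In particular, all
parameters (the degree of the relations, the weight, the degrees of the number fields, the dimension of the space of constants,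
the number and the degree of the points, the number, the orders and the exponents of the equations) may grow with the bound
for the conjugates.
-/

set_option autoImplicit false

open PowerSeries Pool.Agent.Y119.HZ Pool.Agent.Run7.h225.HG

namespace Pool.Agent.Results.MP_5d33ca_ag.PolylogsHypergeometric

/-- The coefficients of the multiple polylogarithm of a word in the letters `0` (`false`) and `1` (`true`); for the word
`0^(s_1 - 1) 1 ⋯ 0^(s_d - 1) 1` the coefficient at `k` is the sum of all `1 / (k_1^(s_1) ⋯ k_d^(s_d))` with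
`k = k_1 > … > k_d ≥ 1`. -/
def coef : List Bool → ℕ → ℚ
  | [], k => if k = 0 then 1 else 0
  | false :: w, k => coef w k / k
  | true :: w, k => (∑ j ∈ Finset.range k, coef w j) / k

/-- the multiple polylogarithm `Li_w(z)` -/
noncomputable def Li (w : List Bool) (z : ℂ) : ℂ := ∑' k : ℕ, (coef w k : ℂ) * z ^ k

/-- the word does not end with the letter `0` -/
def Convergent (w : List Bool) : Prop := w.getLast? ≠ some false

/-- the convergent words of length (weight) at most `W` -/
abbrev Word (W : ℕ) : Type := {w : List Bool // w.length ≤ W ∧ Convergent w}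

/-- the terms of the shuffle product of two words -/
def shuffle : List Bool → List Bool → List (List Bool)
  | [], v => [v]
  | a :: u, [] => [a :: u]
  | a :: u, b :: v => (shuffle u (b :: v)).map (a :: ·) ++ (shuffle (a :: u) v).map (b :: ·)

/-- The characters of the shuffle algebra of the convergent words: `x(u) x(v)` is the sum of the values of `x` at the terms of
the shuffle product of `u` and `v`. -/
def Character (x : List Bool → ℂ) : Prop :=
  x [] = 1 ∧ ∀ u v, Convergent u → Convergent v → x u * x v = ((shuffle u v).map x).sum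

/-- A hypergeometric equation `θ^n f = z ∏_j (θ + α_j) f`. -/
structure Eqn where
  n : ℕ
  α : Fin n → ℚ

/-- the dual equation (the exponents at infinity are `-α_j`) -/
def Eqn.dual (e : Eqn) : Eqn := ⟨e.n, fun j => -e.α j⟩

/-- the multiset of the fractional parts of the `α_j` -/
def Eqn.frac (e : Eqn) : Multiset ℚ := Multiset.map (fun j => Int.fract (e.α j)) Finset.univ.val

/-- the polynomial `Q = ∏_j (x + α_j)` -/
noncomputable def Eqn.poly (e : Eqn) : Polynomial ℚ := ∏ j, (Polynomial.X + Polynomial.C (e.α j))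

/-- `Q(-x) = Q(x)` -/
def Eqn.Symplectic (e : Eqn) : Prop := e.poly.comp (-Polynomial.X) = e.poly

/-- `Q(-1-x) = -Q(x)` -/
def Eqn.Orthogonal (e : Eqn) : Prop := e.poly.comp (-(Polynomial.X + 1)) = -e.poly

/-- The order is at least two, the exponents at infinity are not integers, their sum is `0` or not an integer, and either the
fractional parts of the `α_j` and of the `-α_j` are different multisets or `Q(-x) = Q(x)` or `Q(-1-x) = -Q(x)`. -/
def Eqn.Admissible (e : Eqn) : Prop :=
  2 ≤ e.n ∧ (∀ j, ∀ a : ℤ, e.α j ≠ a) ∧ (∑ j, e.α j = 0 ∨ ∀ a : ℤ, ∑ j, e.α j ≠ a) ∧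
  (e.frac ≠ e.dual.frac ∨ e.Symplectic ∨ e.Orthogonal)

/-- The equations of a list are admissible, the exponents at infinity of different equations of the list, and of one of
them and of the dual of another one, are different modulo `ℤ`, and the list does not contain both an equation of order two
such that `s = ∑_j α_j ≠ 0` and `2 s` is an integer and an equation of order three with `Q(-1-x) = -Q(x)`. -/
def Good {r : ℕ} (e : Fin r → Eqn) : Prop :=
  (∀ j, (e j).Admissible) ∧ (∀ i j, i ≠ j → (e i).frac ≠ (e j).frac ∧ (e i).frac ≠ (e j).dual.frac) ∧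
  ∀ i j, (e i).n = 2 → (∃ a : ℤ, 2 * ∑ l, (e i).α l = a) → ∑ l, (e i).α l ≠ 0 → (e j).n = 3 → ¬ (e j).Orthogonal

/-- the power series `k + ε` in the variable `ε` -/
noncomputable def shift (k : ℕ) : PowerSeries ℚ := C (k : ℚ) + X

/-- `a_k(ε) = ∏_{l < k} Q(l + ε) / (l + 1 + ε)^n`. The series `∑_k a_k(ε) z^(k + ε)` solves the equation
`(θ^n - z Q(θ)) f = ε^n z^ε`, hence its coefficients `f_j` at `ε^j` with `j < n` are solutions of the homogeneous
equation. -/
noncomputable def Eqn.frob (e : Eqn) (k : ℕ) : PowerSeries ℚ :=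
  ∏ l ∈ Finset.range k, (Polynomial.aeval (shift l) e.poly * ((shift (l + 1))⁻¹) ^ e.n)

/-- The matrix with the entries `(θ^i f_j)(z)` at `z = 1 / ξ`, where `f_j(z)` is the coefficient of `ε^j` in the series
`∑_k a_k(ε) z^(k + ε)`, `z^ε = ∑_a (log z)^a ε^a / a!`, with the value `-l` of `log z`, where `exp l = ξ`. -/
noncomputable def Eqn.Y (e : Eqn) (ξ l : ℂ) : Matrix (Fin e.n) (Fin e.n) ℂ :=
  Matrix.of fun i j => ∑ a ∈ Finset.range ((j : ℕ) + 1), (-l) ^ a / (a.factorial : ℂ) *
    ∑' k : ℕ, ((coeff ((j : ℕ) - a) (shift k ^ (i : ℕ) * e.frob k) : ℚ) : ℂ) * (1 / ξ) ^ k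

/-- The matrix of the alternating form: the entry `(i, j)` is `(-1)^i q_{i+j+1-n}` for `i + j + 1 ≥ n` and `0`
otherwise, where `q_l` are the coefficients of `Q`. -/
noncomputable def Eqn.J (e : Eqn) : Matrix (Fin e.n) (Fin e.n) ℂ :=
  Matrix.of fun i j => if e.n ≤ (i : ℕ) + j + 1 then (((-1) ^ (i : ℕ) * e.poly.coeff (i + j + 1 - e.n) : ℚ) : ℂ) else 0

/-- the polynomial `(Q(x) + Q(y)) / (x + y + 1)`, a polynomial in `y` with coefficients in `ℚ[x]` -/
noncomputable def lagrange (Q : Polynomial ℚ) : Polynomial (Polynomial ℚ) :=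
  (Polynomial.C Q + Q.map Polynomial.C) /ₘ (Polynomial.X + Polynomial.C (Polynomial.X + 1))

/-- The matrix of the symmetric form on the fibre at `z`: the entry `(i, j)` is the coefficient of `x^i y^j` in
`(x^n + y^n) / (x + y) - z (Q(x) + Q(y)) / (x + y + 1)`. -/
noncomputable def Eqn.B (e : Eqn) (z : ℂ) : Matrix (Fin e.n) (Fin e.n) ℂ :=
  Matrix.of fun i j => (if (i : ℕ) + j + 1 = e.n then (-1) ^ (i : ℕ) else 0) -
    z * ((((lagrange e.poly).coeff j).coeff i : ℚ) : ℂ)

/-- The torsor of the equation at `z`: the matrices `X` with `det X = (1 - z)^(-s)` (principal branch), `s = ∑_j α_j`, and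
`Xᵀ J X = J` if `Q(-x) = Q(x)`, and `Xᵀ B(z) X = B(0)` if `Q(-1-x) = -Q(x)`. -/
def Eqn.T (e : Eqn) (z : ℂ) : Set (Matrix (Fin e.n) (Fin e.n) ℂ) :=
  {X | X.det = Complex.exp (-((∑ j, e.α j : ℚ) : ℂ) * Complex.log (1 - z)) ∧
    (e.Symplectic → X.transpose * e.J * X = e.J) ∧ (e.Orthogonal → X.transpose * e.B z * X = e.B 0)}

/-- the coordinates: `k` numbers, `k` lists of matrices and `k` numbers for every word -/
abbrev Coord {r : ℕ} (e : Fin r → Eqn) (k W : ℕ) : Type :=
  (Σ _ : Fin k, Option (Σ j : Fin r, Fin (e j).n × Fin (e j).n)) ⊕ Fin k × Word W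

/-- the point with the coordinates `l_i`, the entries of the matrices `X_ij` and the numbers `x_i(w)` -/
def point {r k W : ℕ} {e : Fin r → Eqn} (l : Fin k → ℂ) (X : Fin k → ∀ j, Matrix (Fin (e j).n) (Fin (e j).n) ℂ)
    (x : Fin k → List Bool → ℂ) : Coord e k W → ℂ
  | Sum.inl ⟨i, none⟩ => l i
  | Sum.inl ⟨i, some ⟨j, p⟩⟩ => X i j p.1 p.2
  | Sum.inr (i, w) => x i w.1

/-- `ξ` is an algebraic integer of degree at most `g` all of whose conjugates have absolute value at most `T` -/
def House (g T : ℕ) (ξ : ℂ) : Prop :=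
  IsIntegral ℤ ξ ∧ (minpoly ℚ ξ).natDegree ≤ g ∧ ∀ z : ℂ, Polynomial.aeval z (minpoly ℚ ξ) = 0 → ‖z‖ ≤ T

/-- There are values `l_i` of the logarithms of the `ξ_i`, a number field `L` of degree `≤ d` and a polynomial relation of
degree `≤ δ` with coefficients in `L V` between the numbers `l_i`, the entries of the matrices `Y_j(1 / ξ_i) Ω_ij` and the
numbers `Li_w(1 / ξ_i)`, `w` of weight `≤ W`, which does not vanish identically on the set of the points with arbitrary
coordinates `l'_i`, the entries of `X_ij Ω_ij` with `X_ij ∈ T_j(1 / ξ_i)` and the values of arbitrary characters `x_i` of the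
shuffle algebra. -/
def Exceptional {r k : ℕ} (δ d W : ℕ) (V : Submodule ℚ ℂ) (e : Fin r → Eqn)
    (Ω : Fin k → ∀ j, Matrix (Fin (e j).n) (Fin (e j).n) ℂ) (ξ : Fin k → ℂ) : Prop :=
  ∃ l : Fin k → ℂ, (∀ i, Complex.exp (l i) = ξ i) ∧
    ∃ L : IntermediateField ℚ ℂ, FiniteDimensional ℚ L ∧ Module.finrank ℚ L ≤ d ∧
    ∃ P : MvPolynomial (Coord e k W) ℂ, P.totalDegree ≤ δ ∧ (∀ s, P.coeff s ∈ Submodule.span L (V : Set ℂ)) ∧
      MvPolynomial.aeval (point l (fun i j => (e j).Y (ξ i) (l i) * Ω i j) fun i w => Li w (1 / ξ i)) P = 0 ∧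
      ∃ (l' : Fin k → ℂ) (X : Fin k → ∀ j, Matrix (Fin (e j).n) (Fin (e j).n) ℂ) (x : Fin k → List Bool → ℂ),
        (∀ i j, X i j ∈ (e j).T (1 / ξ i)) ∧ (∀ i, Character (x i)) ∧
        MvPolynomial.aeval (point l' (fun i j => X i j * Ω i j) x) P ≠ 0

/-- the order of the equation and the numerators and the denominators of its exponents are at most `B` -/
def Eqn.Size (e : Eqn) (B : ℕ) : Prop := e.n ≤ B ∧ ∀ j, |(e.α j).num| ≤ B ∧ (e.α j).den ≤ B

/-- For every `ℚ`-space `V` of complex numbers of dimension `≤ D` and all complex matrices `Ω_ij` the number of exceptional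
`k`-tuples (for relations of degree `≤ δ`, number fields of degree `≤ d` and words of length `≤ W`) of algebraic integers of
degree `≤ g` with conjugates of size `≤ T` is at most `ε N^k`, where `N` is the number of all these algebraic integers. -/
def Bound {r : ℕ} (k g d δ D W : ℕ) (e : Fin r → Eqn) (T : ℕ) (ε : ℝ) : Prop :=
  ∀ V : Submodule ℚ ℂ, Module.Finite ℚ V → Module.finrank ℚ V ≤ D →
    ∀ Ω : Fin k → ∀ j, Matrix (Fin (e j).n) (Fin (e j).n) ℂ,
    {ξ : Fin k → ℂ | (∀ i, House g T (ξ i)) ∧ Exceptional δ d W V e Ω ξ}.Finite ∧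
    (({ξ : Fin k → ℂ | (∀ i, House g T (ξ i)) ∧ Exceptional δ d W V e Ω ξ}.ncard : ℕ) : ℝ) ≤
      ε * (({ξ : ℂ | House g T ξ}.ncard : ℕ) : ℝ) ^ k

theorem coef_eq (w : List Bool) (k : ℕ) : coef w k = Pool.Agent.Run7.h225.HP.cw w k := by
  induction w generalizing k with
  | nil => rfl
  | cons a w ih =>
    rcases a with _ | _
    · rw [coef, Pool.Agent.Run7.h225.HP.cw, ih]
    · rw [coef, Pool.Agent.Run7.h225.HP.cw]
      simp only [ih]

theorem Li_eq (w : List Bool) (z : ℂ) :
    Li w z = Pool.Agent.Run7.h225.HP.vz z (Pool.Agent.Run7.h225.HP.lw w) := by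
  unfold Li Pool.Agent.Run7.h225.HP.vz Pool.Agent.Y916.Al.evc Pool.Agent.Run7.h225.HP.lw
  refine tsum_congr fun k => ?_
  rw [coef_eq, coeff_mk]

theorem shuffle_eq (u v : List Bool) : shuffle u v = Pool.Agent.Run7.h225.HP.sh u v := by
  induction u generalizing v with
  | nil => rw [shuffle, Pool.Agent.Run7.h225.HP.sh]
  | cons a u ihu =>
    induction v with
    | nil => rw [shuffle, Pool.Agent.Run7.h225.HP.sh]
    | cons b v ihv => rw [shuffle, Pool.Agent.Run7.h225.HP.sh, ihu, ihv]

theorem char_iff (x : List Bool → ℂ) : Character x ↔ Pool.Agent.Run7.h225.HP.Chr x := by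
  constructor
  · rintro ⟨h1, h2⟩
    exact ⟨h1, fun u v hu hv => by rw [h2 u v hu hv, shuffle_eq]⟩
  · rintro ⟨h1, h2⟩
    exact ⟨h1, fun u v hu hv => by rw [h2 u v hu hv, shuffle_eq]⟩

theorem point_eq {r k W : ℕ} {e : Fin r → Eqn} (l : Fin k → ℂ)
    (X : Fin k → ∀ j, Matrix (Fin (e j).n) (Fin (e j).n) ℂ) (x : Fin k → List Bool → ℂ) :
    point (W := W) l X x = Sum.elim (pjc (n := fun j => (e j).n) l X) fun p => x p.1 p.2.1 := by
  funext v
  obtain ⟨i, _ | ⟨j, p⟩⟩ | ⟨i, w⟩ := v
  · rfl
  · rfl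
  · rfl

theorem frob_eq (e : Eqn) (k : ℕ) : e.frob k = Pool.Agent.Y119.HY.aq e.n e.poly k := rfl

theorem J_eq (e : Eqn) : e.J = Pool.Agent.Y119.HY.cm (Pool.Agent.Y119.HY.Jm e.n e.poly) := by
  ext i j
  rw [Pool.Agent.Y119.HY.cm_apply]
  unfold Eqn.J Pool.Agent.Y119.HY.Jm
  rw [Matrix.of_apply, Matrix.of_apply]
  split_ifs
  · rfl
  · simp

theorem B_eq (e : Eqn) (z : ℂ) : e.B z = Run7.h893.HO.Bz (Pool.Agent.Y119.HY.cm (Run7.h893.HO.J0m e.n))
    (Pool.Agent.Y119.HY.cm (Run7.h893.HO.J1m e.n e.poly)) z := by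
  ext i j
  unfold Eqn.B Run7.h893.HO.Bz
  rw [Matrix.of_apply, Matrix.sub_apply, Matrix.smul_apply, Pool.Agent.Y119.HY.cm_apply, Pool.Agent.Y119.HY.cm_apply,
    smul_eq_mul]
  congr 1
  unfold Run7.h893.HO.J0m
  rw [Matrix.of_apply]
  split_ifs
  · push_cast
    rfl
  · rw [Rat.cast_zero]

theorem Y_eq (e : Eqn) (ξ l : ℂ) : e.Y ξ l = Pool.Agent.Y119.HY.Hf (Pool.Agent.Y119.HY.Hc e.n e.poly) (1 / ξ) *
    Pool.Agent.Y119.HY.E (Pool.Agent.Y119.HY.cm (Pool.Agent.Y119.HY.Am e.n)) (-l) := by
  ext i j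
  unfold Eqn.Y
  rw [Matrix.of_apply, Matrix.mul_apply]
  have hE : ∀ c : Fin e.n, Pool.Agent.Y119.HY.E (Pool.Agent.Y119.HY.cm (Pool.Agent.Y119.HY.Am e.n))
      (-l) c j = ∑ a ∈ Finset.range e.n, if (j : ℕ) = c + a then (-l) ^ a / (a.factorial : ℂ) else 0 := by
    intro c
    unfold Pool.Agent.Y119.HY.E
    rw [Matrix.sum_apply]
    refine Finset.sum_congr rfl fun a _ => ?_
    rw [Matrix.smul_apply, ← Pool.Agent.Y119.HY.cm_pow, Pool.Agent.Y119.HY.cm_apply, Pool.Agent.Y119.HY.Am_pow, smul_eq_mul]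
    split_ifs
    · push_cast
      ring
    · simp
  simp only [hE, Finset.mul_sum]
  rw [Finset.sum_comm]
  have hsub : Finset.range ((j : ℕ) + 1) ⊆ Finset.range e.n := by
    intro a ha
    rw [Finset.mem_range] at ha ⊢
    have := j.2
    omega
  refine Finset.sum_subset_zero_on_sdiff hsub (fun a ha => ?_) fun a ha => ?_
  · rw [Finset.mem_sdiff, Finset.mem_range, Finset.mem_range] at ha
    refine Finset.sum_eq_zero fun c _ => ?_
    rw [if_neg (by omega), mul_zero]
  · rw [Finset.mem_range] at ha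
    have hj := j.2
    rw [Finset.sum_eq_single (⟨(j : ℕ) - a, by omega⟩ : Fin e.n)]
    · rw [if_pos (by simp only; omega), mul_comm]
      congr 1
    · intro c _ hc
      rw [if_neg, mul_zero]
      intro h
      apply hc
      apply Fin.ext
      simp only
      omega
    · intro h
      exact absurd (Finset.mem_univ _) h

theorem types {r : ℕ} {e : Fin r → Eqn} (he : Good e) : ∃ W, JU (fun j => (e j).n) (fun j => (e j).poly) W :=
  JU_QA (n := fun j => (e j).n) (α := fun j => (e j).α) (fun j => (he.1 j).1) (fun j => (he.1 j).2.1)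
    (fun j => (he.1 j).2.2.1) (fun j => (he.1 j).2.2.2) (fun i j hij => he.2.1 i j hij) he.2.2

theorem T_eq {e : Eqn} (he : e.Admissible) (z : ℂ) : e.T z = TU e.n e.poly (Complex.log (1 - z)) z := by
  have h1 : e.poly.coeff (e.n - 1) = ∑ j, e.α j := QA_coeff (by have := he.1; omega) e.α
  have hQ := QG_QA he.1 (nonint he.2.1)
  have hB : e.B 0 = Pool.Agent.Y119.HY.cm (Run7.h893.HO.J0m e.n) := by
    rw [B_eq]
    unfold Run7.h893.HO.Bz
    rw [zero_smul, sub_zero]
  ext X
  unfold Eqn.T TU
  rw [h1, J_eq, hB, B_eq]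
  refine and_congr_right fun _ => and_congr ⟨fun h h2 => h ?_, fun h h2 => h ?_⟩ ⟨fun h h2 => h h2.sym, fun h h2 => h ?_⟩
  · exact even_of_QD h2
  · exact QD_of_even hQ h2
  · exact QO_of_comp he.1 (nonint he.2.1) h2

theorem mem_T {e : Eqn} (he : e.Admissible) {ξ l : ℂ} (hξ : 1 < ‖ξ‖) : e.Y ξ l ∈ e.T (1 / ξ) := by
  rw [T_eq he, Y_eq]
  refine mem_TU (QG_QA he.1 (nonint he.2.1)) ?_ _
  rw [norm_div, norm_one, div_lt_one (by linarith)]
  exact hξ

theorem fixed {r : ℕ} (e : Fin r → Eqn) (he : Good e) (k g d δ D W : ℕ) (hg : 1 ≤ g) :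
    ∃ c C : ℝ, 0 < c ∧ ∀ T : ℕ, 1 ≤ T → Bound k g d δ D W e T (C * (T : ℝ) ^ (-c)) := by
  classical
  obtain ⟨W', hJ⟩ := types he
  obtain ⟨c, hc, C, hC, h1⟩ := Pool.Agent.Run7.h225.HP.tup_jp Pool.Agent.Run7.h225.HP.pp hJ k g δ d D W hg
  refine ⟨c, C, hc, fun T hT V hV hVD Ω => ?_⟩
  obtain ⟨h2, h3⟩ := h1 V hV hVD Ω T hT
  have hsub : {ξ : Fin k → ℂ | (∀ i, House g T (ξ i)) ∧ Exceptional δ d W V e Ω ξ} ⊆
      {α : Fin k → ℂ | (∀ i, Pool.Agent.Y916.Sl.SInt g T (α i)) ∧
        Pool.Agent.Run7.h225.HP.ExcJP (fun j => (e j).n) (fun j => (e j).poly) δ d W V Ω α} := by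
    rintro ξ ⟨hξ, l, hl, L, hL1, hL2, P, hPd, hPc, hP0, l', X, x, hX, hx, hPX⟩
    refine ⟨fun i => hξ i, l, hl, L, hL1, hL2, P, hPd, hPc, ?_, l', X, x, fun i j => ?_, fun i => (char_iff _).1 (hx i), ?_⟩
    · rw [point_eq] at hP0
      simp only [Y_eq, Li_eq] at hP0
      exact hP0
    · rw [← T_eq (he.1 j)]
      exact hX i j
    · rw [point_eq] at hPX
      exact hPX
  refine ⟨h2.subset hsub, le_trans ?_ h3⟩
  exact_mod_cast Set.ncard_le_ncard hsub h2

theorem diag {F : ℕ → ℕ → Prop} (h0 : ∀ T, F 0 T) (h : ∀ w, ∀ᶠ T in Filter.atTop, F w T) :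
    ∃ w : ℕ → ℕ, Filter.Tendsto w Filter.atTop Filter.atTop ∧ ∀ T, F (w T) T := by
  classical
  have h1 : ∀ w, ∃ T₀, ∀ T, T₀ ≤ T → F w T := fun w => Filter.eventually_atTop.1 (h w)
  choose T₀ hT₀ using h1
  refine ⟨fun T => Nat.findGreatest (fun w => T₀ w ≤ T) T, ?_, fun T => ?_⟩
  · rw [Filter.tendsto_atTop]
    intro b
    filter_upwards [Filter.eventually_ge_atTop (max b (T₀ b))] with T hT
    exact Nat.le_findGreatest ((le_max_left _ _).trans hT) ((le_max_right _ _).trans hT)
  · show F (Nat.findGreatest (fun w => T₀ w ≤ T) T) T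
    by_cases h2 : Nat.findGreatest (fun w => T₀ w ≤ T) T = 0
    · rw [h2]
      exact h0 T
    · have h3 := Nat.findGreatest_of_ne_zero (P := fun w => T₀ w ≤ T) rfl h2
      exact hT₀ _ T h3

theorem size_finite (r B : ℕ) : {e : Fin r → Eqn | ∀ j, (e j).Size B}.Finite := by
  have h1 : {q : ℚ | |q.num| ≤ B ∧ q.den ≤ B}.Finite := by
    refine (((Set.finite_Icc (-(B : ℤ)) B).prod (Set.finite_Iic B)).image fun p : ℤ × ℕ => (p.1 : ℚ) / p.2).subset ?_
    rintro q ⟨hq1, hq2⟩
    exact ⟨(q.num, q.den), ⟨abs_le.1 hq1, hq2⟩, Rat.num_div_den q⟩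
  have h2 : {e : Eqn | e.Size B}.Finite := by
    refine ((Set.finite_Iic B).biUnion (t := fun n => (fun α : Fin n → ℚ => (⟨n, α⟩ : Eqn)) ''
      {α | ∀ j, α j ∈ {q : ℚ | |q.num| ≤ B ∧ q.den ≤ B}}) fun n _ => (Set.Finite.pi' fun _ => h1).image _).subset ?_
    rintro ⟨n, α⟩ ⟨hn, hα⟩
    exact Set.mem_biUnion (show n ∈ Set.Iic B from hn) ⟨α, hα, rfl⟩
  exact Set.Finite.pi' fun _ => h2

theorem bound_ev {r : ℕ} (e : Fin r → Eqn) (he : Good e) (k g w : ℕ) (hg : 1 ≤ g) (hw : 1 ≤ w) :
    ∀ᶠ T : ℕ in Filter.atTop, Bound k g w w w w e T (1 / (w : ℝ)) := by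
  obtain ⟨c, C, hc, h⟩ := fixed e he k g w w w w hg
  have hw' : (0 : ℝ) < 1 / w := by positivity
  have h1 : Filter.Tendsto (fun T : ℕ => C * (T : ℝ) ^ (-c)) Filter.atTop (nhds 0) := by
    have h2 := ((tendsto_rpow_neg_atTop hc).comp tendsto_natCast_atTop_atTop).const_mul C
    rwa [mul_zero] at h2
  filter_upwards [h1.eventually_lt_const hw', Filter.eventually_ge_atTop 1] with T hT hT1 V hV hVD Ω
  obtain ⟨h3, h4⟩ := h T hT1 V hV hVD Ω
  exact ⟨h3, h4.trans (mul_le_mul_of_nonneg_right hT.le (by positivity))⟩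

/-- For `|ξ| > 1` the matrices `Y(1 / ξ)` lie in the torsors `T(1 / ξ)`, for all branches and all admissible equations, and
the numbers `Li_w(1 / ξ)` are a character of the shuffle algebra. For every good list `e_1, …, e_r` of hypergeometric equations
and all `k`, `g`, `d`, `δ`, `D` and `W` there are `c > 0` and `C` such that for every `ℚ`-space `V` of complex numbers of
dimension `≤ D` and all complex matrices `Ω_ij` at most `C T^(-c) N^k` of the `N^k` `k`-tuples of algebraic integers of degree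
`≤ g` with conjugates of size `≤ T` are exceptional. In particular there is a function `w(T)` which tends to infinity such that
this number is at most `N^k / w(T)` for all `T`, all good lists of at most `w(T)` equations of size at most `w(T)` and all
parameters `k`, `g`, `d`, `δ`, `D` and `W` of size at most `w(T)`. -/
theorem result :
    (∀ ξ l : ℂ, 1 < ‖ξ‖ → Complex.exp l = ξ →
      (∀ e : Eqn, e.Admissible → e.Y ξ l ∈ e.T (1 / ξ)) ∧ Character fun w => Li w (1 / ξ)) ∧
    (∀ (r : ℕ) (e : Fin r → Eqn), Good e → ∀ k g d δ D W : ℕ, 1 ≤ g →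
      ∃ c C : ℝ, 0 < c ∧ ∀ T : ℕ, 1 ≤ T → Bound k g d δ D W e T (C * (T : ℝ) ^ (-c))) ∧
    ∃ w : ℕ → ℕ, Filter.Tendsto w Filter.atTop Filter.atTop ∧ ∀ T : ℕ, ∀ r ≤ w T, ∀ e : Fin r → Eqn, Good e →
      (∀ j, (e j).Size (w T)) → ∀ k ≤ w T, ∀ g ≤ w T, 1 ≤ g → Bound k g (w T) (w T) (w T) (w T) e T (1 / (w T : ℝ)) := by
  refine ⟨fun ξ l hξ _ => ⟨fun e he => mem_T he hξ, ?_⟩, fun r e he k g d δ D W hg => fixed e he k g d δ D W hg, ?_⟩
  · rw [char_iff]
    simp only [Li_eq]
    refine (Pool.Agent.Run7.h225.HP.pp.val Pool.Agent.Run7.h225.HP.pp.shuf).2 _ ?_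
    rw [norm_div, norm_one, div_lt_one (by linarith)]
    exact hξ
  · refine diag (F := fun w T => ∀ r ≤ w, ∀ e : Fin r → Eqn, Good e → (∀ j, (e j).Size w) → ∀ k ≤ w, ∀ g ≤ w, 1 ≤ g →
      Bound k g w w w w e T (1 / (w : ℝ))) (fun T r _ e _ _ k _ g hg hg1 => by omega) fun w => ?_
    rcases Nat.eq_zero_or_pos w with rfl | hw
    · exact Filter.Eventually.of_forall fun T r _ e _ _ k _ g hg hg1 => by omega
    have h1 : ∀ᶠ T : ℕ in Filter.atTop, ∀ r ∈ Set.Iic w, ∀ e ∈ {e : Fin r → Eqn | ∀ j, (e j).Size w}, ∀ k ∈ Set.Iic w,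
        ∀ g ∈ Set.Iic w, Good e → 1 ≤ g → Bound k g w w w w e T (1 / (w : ℝ)) := by
      rw [Filter.eventually_all_finite (Set.finite_Iic w)]
      intro r _
      rw [Filter.eventually_all_finite (size_finite r w)]
      intro e _
      rw [Filter.eventually_all_finite (Set.finite_Iic w)]
      intro k _
      rw [Filter.eventually_all_finite (Set.finite_Iic w)]
      intro g _
      by_cases he : Good e
      · by_cases hg : 1 ≤ g
        · filter_upwards [bound_ev e he k g w hg hw] with T hT _ _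
          exact hT
        · exact Filter.Eventually.of_forall fun T _ h => absurd h hg
      · exact Filter.Eventually.of_forall fun T h => absurd h he
    filter_upwards [h1] with T hT r hr e he hs k hk g hg hg1
    exact hT r hr e hs k hk g hg he hg1

end Pool.Agent.Results.MP_5d33ca_ag.PolylogsHypergeometric
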